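import Mathlib

open Filter Topology

namespace Pool.Agent.MP_149452_an

section

variable {E : Type*} [NormedAddCommGroup E] [NormedSpace ℝ E]

/-- The multilinear map of a monomial. -/
noncomputable def mlin (l : ℕ → E →L[ℝ] ℝ) (w : List ℕ) (n : ℕ) :
    ContinuousMultilinearMap ℝ (fun _ : Fin n => E) ℝ :=
  (ContinuousMultilinearMap.mkPiAlgebra ℝ (Fin n) ℝ).compContinuousLinearMap
    (fun j => l (w.getD j 0))

theorem mlin_apply (l : ℕ → E →L[ℝ] ℝ) (w : List ℕ) (n : ℕ) (v : Fin n → E) :
    mlin l w n v = ∏ j : Fin n, l (w.getD j 0) (v j) := by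
  simp [mlin]

theorem mlin_diag (l : ℕ → E →L[ℝ] ℝ) (w : List ℕ) {n : ℕ} (hn : w.length = n) (h : E) :
    mlin l w n (fun _ => h) = (w.map fun i => l i h).prod := by
  subst hn
  rw [mlin_apply, ← List.prod_ofFn]
  congr 1
  refine List.ext_getElem (by simp) fun k h1 h2 => ?_
  simp

theorem norm_smul_mlin_le {l : ℕ → E →L[ℝ] ℝ} (hl : ∀ i x, |l i x| ≤ ‖x‖) (a : ℝ) (w : List ℕ)
    (n : ℕ) : ‖a • mlin l w n‖ ≤ |a| := by
  refine ContinuousMultilinearMap.opNorm_le_bound (abs_nonneg a) fun v => ?_
  rw [_root_.smul_apply, mlin_apply, smul_eq_mul, Real.norm_eq_abs, abs_mul,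
    Finset.abs_prod]
  exact mul_le_mul_of_nonneg_left (Finset.prod_le_prod (fun _ _ => abs_nonneg _)
    fun j _ => hl _ _) (abs_nonneg a)

theorem analyticAt_of_rep {l : ℕ → E →L[ℝ] ℝ} (hl : ∀ i x, |l i x| ≤ ‖x‖) {ι : Type}
    {c : ι → ℝ} {w : ι → List ℕ} {x : E} {u : E → ℝ} {r : ℝ} (hr : 0 < r)
    (h1 : Summable (fun i => |c i| * r ^ (w i).length))
    (h3 : ∀ h : E, ‖h‖ ≤ r → HasSum (fun i => c i * ((w i).map fun j => l j h).prod) (u (x + h))) :
    AnalyticAt ℝ u x := by
  have hfib : ∀ n : ℕ, Summable fun i : {i // (w i).length = n} => |c i| * r ^ n := by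
    intro n
    have := h1.subtype {i | (w i).length = n}
    refine this.congr fun i => ?_
    have hi : (w i.1).length = n := i.2
    simp only [Function.comp_apply, hi]
  have hfib0 : ∀ n : ℕ, Summable fun i : {i // (w i).length = n} => |c i| := by
    intro n
    have := (hfib n).mul_right (r ^ n)⁻¹
    refine this.congr fun i => ?_
    rw [mul_inv_cancel_right₀ (by positivity)]
  have hsm : ∀ n : ℕ, Summable fun i : {i // (w i).length = n} => c i • mlin l (w i) n := fun n =>
    Summable.of_norm_bounded (hfib0 n) (fun i => norm_smul_mlin_le hl _ _ _)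
  set p : FormalMultilinearSeries ℝ E ℝ := fun n =>
    ∑' i : {i // (w i).length = n}, c i • mlin l (w i) n with hp
  have hpn : ∀ n, ‖p n‖ * r ^ n ≤ ∑' i, |c i| * r ^ (w i).length := by
    intro n
    have h4 : ‖p n‖ ≤ ∑' i : {i // (w i).length = n}, |c i| :=
      tsum_of_norm_bounded (hfib0 n).hasSum (fun i => norm_smul_mlin_le hl _ _ _)
    have h5 : (∑' i : {i // (w i).length = n}, |c i|) * r ^ n =
        ∑' i : {i // (w i).length = n}, |c i| * r ^ n := by
      rw [tsum_mul_right]
    have h6 : ∑' i : {i // (w i).length = n}, |c i| * r ^ n ≤ ∑' i, |c i| * r ^ (w i).length := by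
      have h7 : ∑' i : {i // (w i).length = n}, |c i| * r ^ n =
          ∑' i : {i // (w i).length = n}, |c i| * r ^ (w i).length := by
        refine tsum_congr fun i => ?_
        have hi : (w i).length = n := i.2
        rw [hi]
      rw [h7]
      exact h1.tsum_subtype_le (fun i => |c i| * r ^ (w i).length) {i | (w i).length = n}
        (fun i => by positivity)
    calc ‖p n‖ * r ^ n ≤ (∑' i : {i // (w i).length = n}, |c i|) * r ^ n :=
          mul_le_mul_of_nonneg_right h4 (by positivity)
      _ ≤ _ := by rw [h5]; exact h6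
  lift r to NNReal using hr.le
  refine ⟨p, (r : ENNReal), ?_⟩
  refine ⟨p.le_radius_of_bound _ fun n => hpn n, ?_, ?_⟩
  · rw [ENNReal.coe_pos]
    exact_mod_cast hr
  · intro y hy
    have hy' : ‖y‖ ≤ r := by
      rw [Metric.mem_eball, edist_zero_right] at hy
      have h4 : ‖y‖₊ < r := by
        rw [← ENNReal.coe_lt_coe]
        exact hy
      exact_mod_cast le_of_lt h4
    have h4 : HasSum ((fun i => c i * ((w i).map fun j => l j y).prod) ∘
        (Equiv.sigmaFiberEquiv fun i => (w i).length)) (u (x + y)) :=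
      (Equiv.hasSum_iff _).2 (h3 y hy')
    refine h4.sigma fun n => ?_
    have h5 : HasSum (fun i : {i // (w i).length = n} => c i • mlin l (w i) n) (p n) :=
      (hsm n).hasSum
    have h6 := h5.mapL (ContinuousMultilinearMap.apply ℝ (fun _ : Fin n => E) ℝ (fun _ => y))
    have h7 : (fun i : {i // (w i).length = n} =>
        (ContinuousMultilinearMap.apply ℝ (fun _ : Fin n => E) ℝ (fun _ => y))
          (c i • mlin l (w i) n)) =
        fun i : {i // (w i).length = n} => c i * ((w i).map fun j => l j y).prod := by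
      funext i
      change c i • mlin l (w i) n (fun _ => y) = _
      rw [mlin_diag l (w i) i.2 y, smul_eq_mul]
    rw [h7] at h6
    exact h6

end

end Pool.Agent.MP_149452_an
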