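import Pool.Agent.MP_149452_an.Step

open Filter Topology

namespace Pool.Agent.MP_149452_an

/-- The properties of the scale function used in the construction. -/
structure Scale (f H : X → ℝ) (ε : ℝ) : Prop where
  cont : Continuous H
  one_le : ∀ x, 1 ≤ H x
  close : ∀ y z : X, ‖z - y‖ ≤ 2 / H y → H y / 2 ≤ H z ∧ |f z - f y| ≤ ε / 4

theorem exists_scale {f : X → ℝ} (hf : Continuous f) {ε : ℝ} (hε : 0 < ε) :
    ∃ H : X → ℝ, Scale f H ε := by
  set W : Set (X × X) := {p | ε / 4 < |f p.1 - f p.2|} with hW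
  by_cases hWn : W.Nonempty
  swap
  · refine ⟨fun _ => 1, continuous_const, fun _ => le_rfl, fun y z _ => ⟨by norm_num, ?_⟩⟩
    by_contra hcon
    push Not at hcon
    exact hWn ⟨(z, y), hcon⟩
  set d : X → ℝ := fun x => Metric.infDist (x, x) W with hd
  have hdc : Continuous d :=
    (Metric.continuous_infDist_pt W).comp (continuous_id.prodMk continuous_id)
  have hd0 : ∀ x, 0 < d x := by
    intro x
    rw [hd, ← Metric.infDist_pos_iff_notMem_closure hWn]
    intro hmem
    have hsub : closure W ⊆ {p | ε / 4 ≤ |f p.1 - f p.2|} := by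
      refine closure_minimal (fun p hp => ?_) ?_
      · have h1 : ε / 4 < |f p.1 - f p.2| := hp
        exact h1.le
      exact isClosed_le continuous_const
        ((hf.comp continuous_fst).sub (hf.comp continuous_snd)).abs
    have h1 := hsub hmem
    simp only [Set.mem_ofPred_eq, sub_self, abs_zero] at h1
    linarith
  set r : X → ℝ := fun x => min 1 (d x) with hr
  have hrc : Continuous r := continuous_const.min hdc
  have hr0 : ∀ x, 0 < r x := fun x => lt_min one_pos (hd0 x)
  have hr1 : ∀ x, r x ≤ 1 := fun x => min_le_left _ _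
  have hrd : ∀ x, r x ≤ d x := fun x => min_le_right _ _
  have hlip : ∀ y z, r z ≤ r y + ‖z - y‖ := by
    intro y z
    have h1 : d z ≤ d y + ‖z - y‖ := by
      have h2 := Metric.infDist_le_infDist_add_dist (s := W) (x := (z, z)) (y := (y, y))
      have h3 : dist (z, z) (y, y) = ‖z - y‖ := by
        rw [Prod.dist_eq, max_self, dist_eq_norm]
      rw [h3] at h2
      exact h2
    have h2 := norm_nonneg (z - y)
    rcases le_total 1 (d y) with h | h
    · have : r y = 1 := min_eq_left h
      linarith [hr1 z]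
    · have : r y = d y := min_eq_right h
      linarith [hrd z]
  refine ⟨fun x => 4 / r x, continuous_const.div hrc fun x => (hr0 x).ne', fun x => ?_,
    fun y z hyz => ⟨?_, ?_⟩⟩
  · rw [le_div_iff₀ (hr0 x)]
    linarith [hr1 x]
  · have h1 : 2 / (4 / r y) = r y / 2 := by
      have := (hr0 y).ne'
      field_simp
      norm_num
    rw [h1] at hyz
    have h2 := hlip y z
    rw [div_div, div_le_div_iff₀ (by linarith [hr0 y]) (hr0 z)]
    linarith [hr0 y]
  · have h1 : 2 / (4 / r y) = r y / 2 := by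
      have := (hr0 y).ne'
      field_simp
      norm_num
    rw [h1] at hyz
    have h2 : (z, y) ∉ W := by
      apply Metric.notMem_of_dist_lt_infDist (x := (y, y))
      have h3 : dist (y, y) (z, y) = ‖z - y‖ := by
        rw [Prod.dist_eq, dist_self, dist_comm, dist_eq_norm]
        exact max_eq_left (norm_nonneg _)
      rw [h3]
      have := hrd y
      have h4 : r y ≤ Metric.infDist (y, y) W := this
      linarith [hr0 y]
    simp only [hW, Set.mem_ofPred_eq, not_lt] at h2
    exact h2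

/-- A sequence of stages. -/
structure Seq (f H : X → ℝ) (ε : ℝ) (S g : ℕ → X → ℝ) : Prop where
  stage : ∀ N, Stage N (S N) (g N)
  step : ∀ N, StepRel f H ε N (S N) (g N) (S (N + 1)) (g (N + 1))
  S0 : ∀ x, S 0 x = H 0
  g0 : ∀ x, g 0 x = f 0

theorem exists_seq {f H : X → ℝ} (hf : Continuous f) (hH : Continuous H) {ε : ℝ} (hε : 0 < ε) :
    ∃ S g : ℕ → X → ℝ, Seq f H ε S g := by
  have h0 : Stage 0 (fun _ => H 0) (fun _ => f 0) :=
    ⟨Ent.const _, Ent.const _, fun _ => rfl, fun _ => rfl⟩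
  let next : (N : ℕ) → {p : (X → ℝ) × (X → ℝ) // Stage N p.1 p.2} →
      {p : (X → ℝ) × (X → ℝ) // Stage (N + 1) p.1 p.2} := fun N p =>
    ⟨(Classical.choose (exists_step hf hH hε p.2),
      Classical.choose (Classical.choose_spec (exists_step hf hH hε p.2))),
      (Classical.choose_spec (Classical.choose_spec (exists_step hf hH hε p.2))).1⟩
  let seq : (N : ℕ) → {p : (X → ℝ) × (X → ℝ) // Stage N p.1 p.2} := fun N =>
    Nat.rec (motive := fun N => {p : (X → ℝ) × (X → ℝ) // Stage N p.1 p.2})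
      ⟨(fun _ => H 0, fun _ => f 0), h0⟩ (fun N p => next N p) N
  refine ⟨fun N => (seq N).1.1, fun N => (seq N).1.2, ?_, ?_, fun x => rfl, fun x => rfl⟩
  · intro N
    exact (seq N).2
  · intro N
    exact (Classical.choose_spec (Classical.choose_spec (exists_step hf hH hε (seq N).2))).2

section

variable {f H : X → ℝ} {ε : ℝ} {S g : ℕ → X → ℝ}

/-- The invariant of the real estimate. -/
theorem real_estimate (hH : Scale f H ε) (hε : 0 < ε) (hs : Seq f H ε S g) (x : X) {B : ℝ}
    (hB : ∀ N, H (proj N x) + 3 / 2 ≤ B) :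
    ∃ N₁ : ℕ, ∀ N, N₁ ≤ N → 0 < S N x ∧ S N x ≤ B ∧
      |g N x - f (proj N x)| ≤ 5 * ε / 8 := by
  -- the last time at which the cube condition is violated
  obtain ⟨N₁, hN₁, hfirst⟩ : ∃ N₁ : ℕ, (∀ N, N₁ ≤ N → ∀ i, i < N + 1 → |x i| < N + 1) ∧
      (N₁ ≠ 0 → ∃ i, i < N₁ ∧ (N₁ : ℝ) ≤ |x i|) := by
    classical
    have hex : ∃ N₁ : ℕ, ∀ N, N₁ ≤ N → ∀ i, i < N + 1 → |x i| < N + 1 := by
      obtain ⟨n, hn⟩ := exists_nat_gt ‖x‖
      refine ⟨n, fun N hN i _ => ?_⟩
      have h1 := abs_apply_le x i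
      have h2 : (n : ℝ) ≤ N := by exact_mod_cast hN
      linarith
    refine ⟨Nat.find hex, Nat.find_spec hex, fun hne => ?_⟩
    obtain ⟨m, hm⟩ := Nat.exists_eq_succ_of_ne_zero hne
    have hnot := Nat.find_min hex (m := m) (by omega)
    push Not at hnot
    obtain ⟨N, hmN, i, hi, hxi⟩ := hnot
    have hN : N = m := by
      by_contra hcon
      have h1 : Nat.find hex ≤ N := by omega
      have := Nat.find_spec hex N h1 i hi
      linarith
    subst hN
    rw [hm]
    refine ⟨i, hi, ?_⟩
    push_cast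
    exact hxi
  have hcube : ∀ N, N₁ ≤ N + 1 → ∀ i, i < N + 1 → |x i| ≤ N + 2 := by
    intro N hN i hi
    have := hN₁ (N + 1) hN i (by omega)
    push_cast at this
    linarith
  -- the invariant
  have hinv : ∀ N, N₁ ≤ N → ∃ m, m ≤ N ∧ (∀ i, m ≤ i → i < N → |x i| ≤ 2 / H (proj m x)) ∧
      H (proj m x) / 2 ≤ S N x ∧ S N x ≤ B ∧ |g N x - f (proj m x)| ≤ 3 * ε / 8 := by
    -- after a forced step
    have hforced : ∀ N, N₁ ≤ N + 1 → ((∃ i, i < N + 1 ∧ (N : ℝ) + 1 ≤ |x i|) ∨
        1 ≤ |x N * S N x|) → ∃ m, m ≤ N + 1 ∧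
        (∀ i, m ≤ i → i < N + 1 → |x i| ≤ 2 / H (proj m x)) ∧
        H (proj m x) / 2 ≤ S (N + 1) x ∧ S (N + 1) x ≤ B ∧
        |g (N + 1) x - f (proj m x)| ≤ 3 * ε / 8 := by
      intro N hN hforce
      obtain ⟨χ, h, k, hχ, hS', hg', happ, hfo⟩ := (hs.step N).ex
      have h1 := happ x (hcube N hN)
      have h2 := hfo x (hcube N hN) hforce
      have h3 := abs_le.1 h2.1
      have h4 := hH.one_le (proj (N + 1) x)
      have h5 := hB (N + 1)
      refine ⟨N + 1, le_rfl, fun i hi hi' => by omega, by linarith, by linarith, ?_⟩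
      have h6 := abs_le.1 h2.2
      have h7 := abs_le.1 h1.2.2
      rw [abs_le]
      constructor <;> linarith
    intro N hN
    induction N, hN using Nat.le_induction with
    | base =>
      rcases Nat.eq_zero_or_pos N₁ with h0 | hpos
      · rw [h0]
        have hp0 : proj 0 x = 0 := by
          ext i
          rw [proj_apply, if_neg (Nat.not_lt_zero i)]
          rfl
        refine ⟨0, le_rfl, fun i hi hi' => by omega, ?_, ?_, ?_⟩
        · rw [hs.S0, hp0]
          linarith [hH.one_le 0]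
        · rw [hs.S0]
          have := hB 0
          rw [hp0] at this
          linarith
        · rw [hs.g0, hp0, sub_self, abs_zero]
          positivity
      · obtain ⟨i, hi, hxi⟩ := hfirst hpos.ne'
        obtain ⟨M, hM⟩ := Nat.exists_eq_succ_of_ne_zero hpos.ne'
        have := hforced M (by omega) (Or.inl ⟨i, by omega, by
          have h1 : (N₁ : ℝ) = M + 1 := by
            rw [hM]
            push_cast
            ring
          rw [← h1]
          exact hxi⟩)
        rw [hM]
        exact this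
    | succ N hN ih =>
      by_cases hforce : 1 ≤ |x N * S N x|
      · exact hforced N (by omega) (Or.inr hforce)
      · push Not at hforce
        obtain ⟨m, hm, hxi, hSm, hSB, hgm⟩ := ih
        set y := proj m x with hy
        have hHy := hH.one_le y
        have hHy0 : 0 < H y := by linarith
        have hS0 : 0 < S N x := by linarith
        have hxN : |x N| ≤ 2 / H y := by
          rw [abs_mul, abs_of_pos hS0] at hforce
          rw [le_div_iff₀ hHy0]
          have := mul_le_mul_of_nonneg_left hSm (abs_nonneg (x N))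
          linarith
        have hxi' : ∀ i, m ≤ i → i < N + 1 → |x i| ≤ 2 / H y := by
          intro i hi hi'
          rcases Nat.lt_succ_iff_lt_or_eq.1 hi' with h1 | h1
          · exact hxi i hi h1
          · rw [h1]
            exact hxN
        have hnorm : ‖proj (N + 1) x - y‖ ≤ 2 / H y :=
          proj_sub_norm_le (by omega) x (by positivity) hxi'
        obtain ⟨hHle, hfle⟩ := hH.close y _ hnorm
        obtain ⟨χ, h, k, hχ, hS', hg', happ, hfo⟩ := (hs.step N).ex
        obtain ⟨ha1, ha2, ha3⟩ := happ x (hcube N (by omega))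
        have hBN := hB (N + 1)
        obtain ⟨hχ0, hχ1⟩ := hχ x
        have hχ1' : 0 ≤ 1 - χ x := by linarith
        refine ⟨m, by omega, hxi', ?_, ?_, ?_⟩
        · rw [hS']
          have e1 := mul_le_mul_of_nonneg_left hSm hχ1'
          have e2 := mul_le_mul_of_nonneg_left (hHle.trans ha1) hχ0
          linarith
        · rw [hS']
          have e1 := mul_le_mul_of_nonneg_left hSB hχ1'
          have e2 := mul_le_mul_of_nonneg_left (show h x ≤ B by linarith) hχ0
          linarith
        · rw [hg']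
          have e0 : (1 - χ x) * g N x + χ x * k x - f y =
              (1 - χ x) * (g N x - f y) + χ x * (k x - f y) := by ring
          have e1 : |k x - f y| ≤ 3 * ε / 8 := by
            have := abs_sub_le (k x) (f (proj (N + 1) x)) (f y)
            linarith
          rw [e0]
          refine (abs_add_le _ _).trans ?_
          rw [abs_mul, abs_mul, abs_of_nonneg hχ1', abs_of_nonneg hχ0]
          have e2 := mul_le_mul_of_nonneg_left hgm hχ1'
          have e3 := mul_le_mul_of_nonneg_left e1 hχ0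
          linarith
  refine ⟨N₁, fun N hN => ?_⟩
  obtain ⟨m, hm, hxi, hSm, hSB, hgm⟩ := hinv N hN
  have hHy := hH.one_le (proj m x)
  have hnorm : ‖proj N x - proj m x‖ ≤ 2 / H (proj m x) :=
    proj_sub_norm_le hm x (by positivity) hxi
  obtain ⟨hHle, hfle⟩ := hH.close _ _ hnorm
  refine ⟨by linarith, hSB, ?_⟩
  have := abs_sub_le (g N x) (f (proj m x)) (f (proj N x))
  rw [abs_sub_comm (f (proj m x))] at this
  linarith

theorem exists_bound_H (hH : Scale f H ε) (x : X) : ∃ B : ℝ, ∀ N, H (proj N x) + 3 / 2 ≤ B := by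
  have h1 : Tendsto (fun N => H (proj N x)) atTop (𝓝 (H x)) :=
    (hH.cont.tendsto x).comp (tendsto_proj x)
  obtain ⟨B, hB⟩ := h1.bddAbove_range
  exact ⟨B + 3 / 2, fun N => by linarith [hB ⟨N, rfl⟩]⟩

/-- The majorant estimate: convergence near each point. -/
theorem complex_estimate (hH : Scale f H ε) (hε : 0 < ε) (hs : Seq f H ε S g) (x : X) :
    ∃ r : ℝ, 0 < r ∧ ∃ m : ℕ, ∃ G : ℝ, Rep (g m) x r G ∧ ∀ N, m ≤ N →
      Rep (fun y => g (N + 1) y - g N y) x r ((1 / 2) ^ N * G) := by
  obtain ⟨B, hB⟩ := exists_bound_H hH x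
  obtain ⟨N₁, hN₁⟩ := real_estimate hH hε hs x hB
  have hB0 : 0 < B := by
    have := hB 0
    linarith [hH.one_le (proj 0 x)]
  set D : ℝ := B + 3 with hD
  have hD0 : 0 < D := by positivity
  -- choose m
  have hx0 : Tendsto (fun i => x i) atTop (𝓝 0) := by
    have := x.zero_at_infty'
    rw [cocompact_eq_cofinite, Nat.cofinite_eq_atTop] at this
    exact this
  obtain ⟨m₂, hm₂⟩ := (Metric.tendsto_atTop.1 hx0) (1 / (8 * D)) (by positivity)
  obtain ⟨m₃, hm₃⟩ := exists_nat_gt (max D (4 * (‖x‖ + 1)))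
  set m := max N₁ (max m₂ m₃) with hm
  have hmN₁ : N₁ ≤ m := le_max_left _ _
  have hmm₂ : m₂ ≤ m := (le_max_left _ _).trans (le_max_right _ _)
  have hmm₃ : m₃ ≤ m := (le_max_right _ _).trans (le_max_right _ _)
  obtain ⟨C₁, hC₁⟩ := (hs.stage m).entS ‖x‖
  obtain ⟨C₂, hC₂⟩ := (hs.stage m).entg ‖x‖
  obtain ⟨r₀, hr₀, hshr⟩ := (hC₁ x le_rfl 1 zero_le_one le_rfl).shrink one_pos one_pos
  set r : ℝ := min (min r₀ 1) (1 / (8 * D)) with hr
  have hr0 : 0 < r := by positivity
  have hrr₀ : r ≤ r₀ := (min_le_left _ _).trans (min_le_left _ _)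
  have hr1 : r ≤ 1 := (min_le_left _ _).trans (min_le_right _ _)
  have hrD : r ≤ 1 / (8 * D) := min_le_right _ _
  have hSm : Rep (S m) x r (B + 1) := by
    refine (hshr r hr0.le hrr₀).le ?_
    obtain ⟨h1, h2, -⟩ := hN₁ m hmN₁
    rw [abs_of_pos h1]
    linarith
  have hgm : Rep (g m) x r (|C₂|) := (hC₂ x le_rfl r hr0.le hr1).le (le_abs_self _)
  -- the induction
  have hind : ∀ N, m ≤ N → Rep (S N) x r (B + 1 + 2 * ((1 / 2) ^ m - (1 / 2) ^ N)) ∧
      Rep (g N) x r ((1 + |C₂|) * Real.exp (2 * ((1 / 2) ^ m - (1 / 2) ^ N)) - 1) ∧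
      Rep (fun y => g (N + 1) y - g N y) x r
        ((1 / 2) ^ N * ((1 + |C₂|) * Real.exp (2 * ((1 / 2) ^ m - (1 / 2) ^ N)))) ∧
      Rep (fun y => S (N + 1) y - S N y) x r ((1 / 2) ^ N) := by
    have hmaj : ∀ N, m ≤ N → ∀ G : ℝ,
        Rep (S N) x r (B + 1 + 2 * ((1 / 2) ^ m - (1 / 2) ^ N)) → Rep (g N) x r G →
        Rep (fun y => g (N + 1) y - g N y) x r ((1 / 2) ^ N * (1 + G)) ∧
        Rep (fun y => S (N + 1) y - S N y) x r ((1 / 2) ^ N) := by
      intro N hN G hSN hGN
      have hmle : (1 / 2 : ℝ) ^ m ≤ 1 := pow_le_one₀ (by norm_num) (by norm_num)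
      have hN0 : (0 : ℝ) < (1 / 2) ^ N := by positivity
      have hSN' : Rep (S N) x r D := hSN.le (by rw [hD]; linarith)
      have hNm₃ : (m₃ : ℝ) ≤ N := by exact_mod_cast hmm₃.trans hN
      have hmax1 : D < m₃ := lt_of_le_of_lt (le_max_left _ _) hm₃
      have hmax2 : 4 * (‖x‖ + 1) < m₃ := lt_of_le_of_lt (le_max_right _ _) hm₃
      have hxN : |x N| ≤ 1 / (8 * D) := by
        have := hm₂ N (hmm₂.trans hN)
        rw [Real.dist_eq, sub_zero] at this
        exact this.le
      have hsmall : (|x N| + r) * D ≤ 1 / 4 := by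
        have h1 : (|x N| + r) * D ≤ (1 / (8 * D) + 1 / (8 * D)) * D :=
          mul_le_mul_of_nonneg_right (by linarith) hD0.le
        have h2 : (1 / (8 * D) + 1 / (8 * D)) * D = 1 / 4 := by
          field_simp
          norm_num
        linarith
      have := (hs.step N).maj x r D (by linarith) hr0.le hr1 (by linarith) hsmall hSN'
      exact ⟨this.2 G hGN, this.1⟩
    intro N hN
    induction N, hN using Nat.le_induction with
    | base =>
      have e1 : Rep (S m) x r (B + 1 + 2 * ((1 / 2) ^ m - (1 / 2) ^ m)) :=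
        hSm.le (by linarith)
      have e2 : Rep (g m) x r ((1 + |C₂|) * Real.exp (2 * ((1 / 2) ^ m - (1 / 2) ^ m)) - 1) :=
        hgm.le (by rw [sub_self, mul_zero, Real.exp_zero]; linarith)
      have e3 := hmaj m le_rfl _ e1 e2
      refine ⟨e1, e2, e3.1.le (le_of_eq (by ring)), e3.2⟩
    | succ N hN ih =>
      obtain ⟨i1, i2, i3, i4⟩ := ih
      have e1 : Rep (S (N + 1)) x r (B + 1 + 2 * ((1 / 2) ^ m - (1 / 2) ^ (N + 1))) := by
        refine ((i1.add i4).congr fun y _ => ?_).le (le_of_eq ?_)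
        · ring
        · ring
      have e2 : Rep (g (N + 1)) x r
          ((1 + |C₂|) * Real.exp (2 * ((1 / 2) ^ m - (1 / 2) ^ (N + 1))) - 1) := by
        refine ((i2.add i3).congr fun y _ => ?_).le ?_
        · ring
        · have h1 : Real.exp (2 * ((1 / 2) ^ m - (1 / 2) ^ (N + 1))) =
              Real.exp (2 * ((1 / 2) ^ m - (1 / 2) ^ N)) * Real.exp ((1 / 2) ^ N) := by
            rw [← Real.exp_add]
            congr 1
            ring
          rw [h1]
          have h2 : (1 / 2 : ℝ) ^ N + 1 ≤ Real.exp ((1 / 2) ^ N) := Real.add_one_le_exp _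
          have h3 : 0 ≤ (1 + |C₂|) * Real.exp (2 * ((1 / 2) ^ m - (1 / 2) ^ N)) := by positivity
          nlinarith [mul_le_mul_of_nonneg_left h2 h3]
      have e3 := hmaj (N + 1) (by omega) _ e1 e2
      refine ⟨e1, e2, e3.1.le (le_of_eq (by ring)), e3.2⟩
  refine ⟨r, hr0, m, (1 + |C₂|) * Real.exp 2, hgm.le ?_, fun N hN => (hind N hN).2.2.1.le ?_⟩
  · have h1 : 1 ≤ Real.exp 2 := Real.one_le_exp (by norm_num)
    nlinarith [abs_nonneg C₂]
  · refine mul_le_mul_of_nonneg_left ?_ (by positivity)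
    refine mul_le_mul_of_nonneg_left ?_ (by positivity)
    rw [Real.exp_le_exp]
    have hmle : (1 / 2 : ℝ) ^ m ≤ 1 := pow_le_one₀ (by norm_num) (by norm_num)
    have hN0 : (0 : ℝ) < (1 / 2) ^ N := by positivity
    linarith

end

theorem main {f : X → ℝ} (hf : Continuous f) {ε : ℝ} (hε : 0 < ε) :
    ∃ g : X → ℝ, (∀ x, AnalyticAt ℝ g x) ∧ ∀ x, |f x - g x| < ε := by
  obtain ⟨H, hH⟩ := exists_scale hf hε
  obtain ⟨S, g, hs⟩ := exists_seq hf hH.cont hε
  -- convergence near every point
  have hconv : ∀ x : X, ∃ r : ℝ, 0 < r ∧ ∃ (F : X → ℝ) (M : ℝ), Rep F x r M ∧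
      ∀ h : X, ‖h‖ ≤ r → Tendsto (fun N => g N (x + h)) atTop (𝓝 (F (x + h))) := by
    intro x
    obtain ⟨r, hr0, m, G, hgm, hinc⟩ := complex_estimate hH hε hs x
    have hsumB : Summable fun k : ℕ => (1 / 2 : ℝ) ^ (m + k) * G := by
      have h1 : Summable fun k : ℕ => (1 / 2 : ℝ) ^ k :=
        summable_geometric_of_lt_one (by norm_num) (by norm_num)
      have h2 := (h1.mul_left ((1 / 2 : ℝ) ^ m)).mul_right G
      refine h2.congr fun k => ?_
      rw [pow_add]
    have hrep : ∀ k, Rep (fun y => g (m + k + 1) y - g (m + k) y) x r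
        ((1 / 2 : ℝ) ^ (m + k) * G) := fun k => hinc (m + k) (by omega)
    have hT := Rep.tsum hsumB hr0.le hrep
    refine ⟨r, hr0, fun y => g m y + ∑' k, (g (m + k + 1) y - g (m + k) y), _, hgm.add hT,
      fun h hh => ?_⟩
    have hs1 : Summable fun k => g (m + k + 1) (x + h) - g (m + k) (x + h) :=
      Summable.of_norm_bounded hsumB fun k => (hrep k).abs_le hh
    have hs2 := hs1.hasSum.tendsto_sum_nat
    have hs3 : ∀ n, ∑ k ∈ Finset.range n, (g (m + k + 1) (x + h) - g (m + k) (x + h)) =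
        g (m + n) (x + h) - g m (x + h) := by
      intro n
      have := Finset.sum_range_sub (fun k => g (m + k) (x + h)) n
      simpa [add_assoc] using this
    simp only [hs3] at hs2
    have hs4 := hs2.const_add (g m (x + h))
    have hs5 : Tendsto (fun n => g (m + n) (x + h)) atTop
        (𝓝 (g m (x + h) + ∑' k, (g (m + k + 1) (x + h) - g (m + k) (x + h)))) := by
      refine hs4.congr fun n => ?_
      ring
    have hs6 : Tendsto (fun n => g (n + m) (x + h)) atTop
        (𝓝 (g m (x + h) + ∑' k, (g (m + k + 1) (x + h) - g (m + k) (x + h)))) := by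
      refine hs5.congr fun n => ?_
      rw [add_comm]
    exact (tendsto_add_atTop_iff_nat m).1 hs6
  refine ⟨fun y => limUnder atTop (fun N => g N y), fun x => ?_, fun x => ?_⟩
  · obtain ⟨r, hr0, F, M, hF, hlim⟩ := hconv x
    exact (hF.congr fun k hk => (hlim k hk).limUnder_eq).analyticAt hr0
  · obtain ⟨r, hr0, F, M, hF, hlim⟩ := hconv x
    have h0 := hlim 0 (by simpa using hr0.le)
    rw [add_zero] at h0
    change |f x - limUnder atTop (fun N => g N x)| < ε
    rw [h0.limUnder_eq]
    obtain ⟨B, hB⟩ := exists_bound_H hH x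
    obtain ⟨N₁, hN₁⟩ := real_estimate hH hε hs x hB
    have h1 : Tendsto (fun N => |g N x - f (proj N x)|) atTop (𝓝 |F x - f x|) :=
      (h0.sub ((hf.tendsto x).comp (tendsto_proj x))).abs
    have h2 : |F x - f x| ≤ 5 * ε / 8 :=
      le_of_tendsto h1 ((eventually_ge_atTop N₁).mono fun N hN => (hN₁ N hN).2.2)
    rw [abs_sub_comm]
    linarith

end Pool.Agent.MP_149452_an
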