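import Pool.Agent.MP_149452_an.Rep

open Filter Topology

namespace Pool.Agent.MP_149452_an

theorem norm_le_iff {x : X} {C : ℝ} (hC : 0 ≤ C) : ‖x‖ ≤ C ↔ ∀ i, |x i| ≤ C := by
  rw [← ZeroAtInftyContinuousMap.norm_toBCF_eq_norm, BoundedContinuousFunction.norm_le hC]
  rfl

/-- The embedding of `ℝ^N` into `c₀`. -/
noncomputable def emb (N : ℕ) (a : Fin N → ℝ) : X where
  toFun := fun i => if h : i < N then a ⟨i, h⟩ else 0
  continuous_toFun := continuous_of_discreteTopology
  zero_at_infty' := by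
    have h1 : (fun i : ℕ => if h : i < N then a ⟨i, h⟩ else 0) =ᶠ[cocompact ℕ] fun _ => 0 := by
      rw [cocompact_eq_cofinite, Nat.cofinite_eq_atTop]
      filter_upwards [eventually_ge_atTop N] with i hi
      rw [dif_neg (not_lt.2 hi)]
    exact tendsto_const_nhds.congr' h1.symm

theorem emb_apply (N : ℕ) (a : Fin N → ℝ) (i : ℕ) :
    emb N a i = if h : i < N then a ⟨i, h⟩ else 0 := rfl

theorem continuous_emb (N : ℕ) : Continuous (emb N) := by
  have : LipschitzWith 1 (emb N) := by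
    refine LipschitzWith.of_dist_le_mul fun a b => ?_
    rw [NNReal.coe_one, one_mul, dist_eq_norm, norm_le_iff dist_nonneg]
    intro i
    have h1 : (emb N a - emb N b) i = emb N a i - emb N b i := rfl
    rw [h1, emb_apply, emb_apply]
    split_ifs with h
    · rw [← Real.dist_eq]
      exact dist_le_pi_dist a b _
    · simp
  exact this.continuous

/-- Truncation to the first `N` coordinates. -/
noncomputable def proj (N : ℕ) (x : X) : X := emb N fun i => x i

theorem proj_apply (N : ℕ) (x : X) (i : ℕ) : proj N x i = if i < N then x i else 0 := by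
  rw [proj, emb_apply]
  split_ifs <;> rfl

theorem proj_apply_lt {N i : ℕ} (x : X) (h : i < N) : proj N x i = x i := by
  rw [proj_apply, if_pos h]

theorem tendsto_proj (x : X) : Tendsto (fun N => proj N x) atTop (𝓝 x) := by
  rw [Metric.tendsto_atTop]
  intro ε hε
  have h0 : Tendsto (fun i => x i) atTop (𝓝 0) := by
    have := x.zero_at_infty'
    rw [cocompact_eq_cofinite, Nat.cofinite_eq_atTop] at this
    exact this
  obtain ⟨N, hN⟩ := (Metric.tendsto_atTop.1 h0) (ε / 2) (by positivity)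
  refine ⟨N, fun M hM => ?_⟩
  have h1 : dist (proj M x) x ≤ ε / 2 := by
    rw [dist_eq_norm, norm_le_iff (by positivity)]
    intro i
    have h1 : (proj M x - x) i = proj M x i - x i := rfl
    rw [h1, proj_apply]
    split_ifs with h
    · simp
      positivity
    · have := hN i (hM.trans (not_lt.1 h))
      rw [Real.dist_eq, sub_zero] at this
      rw [zero_sub, abs_neg]
      exact this.le
  linarith

theorem proj_sub_norm_le {m N : ℕ} (hmN : m ≤ N) (x : X) {C : ℝ} (hC : 0 ≤ C)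
    (h : ∀ i, m ≤ i → i < N → |x i| ≤ C) : ‖proj N x - proj m x‖ ≤ C := by
  rw [norm_le_iff hC]
  intro i
  have h1 : (proj N x - proj m x) i = proj N x i - proj m x i := rfl
  rw [h1, proj_apply, proj_apply]
  by_cases h2 : i < m
  · rw [if_pos (h2.trans_le hmN), if_pos h2]
    simpa using hC
  · rw [if_neg h2]
    by_cases h3 : i < N
    · rw [if_pos h3, sub_zero]
      exact h i (not_lt.1 h2) h3
    · rw [if_neg h3]
      simpa using hC

/-- The compact cube. -/
def Q (N : ℕ) : Set X := {x | (∀ i, N ≤ i → x i = 0) ∧ ∀ i, |x i| ≤ N + 1}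

theorem isCompact_Q (N : ℕ) : IsCompact (Q N) := by
  have h1 : IsCompact (Set.pi Set.univ fun _ : Fin N => Set.Icc (-((N : ℝ) + 1)) (N + 1)) :=
    isCompact_univ_pi fun _ => isCompact_Icc
  have h2 := h1.image (continuous_emb N)
  convert h2 using 1
  ext x
  constructor
  · rintro ⟨hx1, hx2⟩
    refine ⟨fun i => x i, ?_, ?_⟩
    · intro i _
      exact abs_le.1 (hx2 i)
    · ext i
      rw [emb_apply]
      split_ifs with h
      · rfl
      · exact (hx1 i (not_lt.1 h)).symm
  · rintro ⟨a, ha, rfl⟩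
    refine ⟨fun i hi => ?_, fun i => ?_⟩
    · rw [emb_apply, dif_neg (not_lt.2 hi)]
    · rw [emb_apply]
      split_ifs with h
      · exact abs_le.2 (ha ⟨i, h⟩ (Set.mem_univ _))
      · rw [abs_zero]
        positivity

theorem proj_mem_Q {N : ℕ} {x : X} (hx : ∀ i, i < N → |x i| ≤ N + 1) : proj N x ∈ Q N := by
  refine ⟨fun i hi => ?_, fun i => ?_⟩
  · rw [proj_apply, if_neg (not_lt.2 hi)]
  · rw [proj_apply]
    split_ifs with h
    · exact hx i h
    · rw [abs_zero]
      positivity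

/-- Functions all of whose majorants are locally bounded. -/
def Ent (u : X → ℝ) : Prop :=
  ∀ R : ℝ, ∃ C : ℝ, ∀ x : X, ‖x‖ ≤ R → ∀ r : ℝ, 0 ≤ r → r ≤ 1 → Rep u x r C

theorem Ent.const (a : ℝ) : Ent fun _ => a := fun _ => ⟨|a|, fun x _ r _ _ => Rep.const a x r⟩

theorem Ent.coord (i : ℕ) : Ent fun x => x i := fun R =>
  ⟨R + 1, fun x hx r hr hr1 =>
    (Rep.coord i x hr).le (by linarith [abs_apply_le x i])⟩

theorem Ent.add {u v : X → ℝ} (hu : Ent u) (hv : Ent v) : Ent fun x => u x + v x := fun R => by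
  obtain ⟨C, hC⟩ := hu R
  obtain ⟨D, hD⟩ := hv R
  exact ⟨C + D, fun x hx r hr hr1 => (hC x hx r hr hr1).add (hD x hx r hr hr1)⟩

theorem Ent.mul {u v : X → ℝ} (hu : Ent u) (hv : Ent v) : Ent fun x => u x * v x := fun R => by
  obtain ⟨C, hC⟩ := hu R
  obtain ⟨D, hD⟩ := hv R
  exact ⟨C * D, fun x hx r hr hr1 => (hC x hx r hr hr1).mul (hD x hx r hr hr1) hr⟩

theorem Ent.sub {u v : X → ℝ} (hu : Ent u) (hv : Ent v) : Ent fun x => u x - v x := by
  have := hu.add ((Ent.const (-1)).mul hv)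
  simpa [sub_eq_add_neg] using this

theorem Ent.pow {u : X → ℝ} (hu : Ent u) (k : ℕ) : Ent fun x => u x ^ k := fun R => by
  obtain ⟨C, hC⟩ := hu R
  exact ⟨C ^ k, fun x hx r hr hr1 => (hC x hx r hr hr1).pow hr k⟩

theorem Ent.sum {s : Finset ℕ} {f : ℕ → X → ℝ} (hf : ∀ i ∈ s, Ent (f i)) :
    Ent fun x => ∑ i ∈ s, f i x := by
  classical
  induction s using Finset.induction_on with
  | empty => simpa using Ent.const 0
  | insert a s ha ih =>
    have h1 := (hf a (Finset.mem_insert_self a s)).add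
      (ih fun i hi => hf i (Finset.mem_insert_of_mem hi))
    simpa [Finset.sum_insert ha] using h1

theorem Ent.one_sub_exp_neg {u : X → ℝ} (hu : Ent u) : Ent fun x => 1 - Real.exp (-u x) :=
  fun R => by
    obtain ⟨C, hC⟩ := hu R
    exact ⟨Real.exp C - 1, fun x hx r hr hr1 => (hC x hx r hr hr1).one_sub_exp_neg hr⟩

theorem Ent.continuous {u : X → ℝ} (hu : Ent u) : Continuous u := by
  rw [continuous_iff_continuousAt]
  intro x
  obtain ⟨C, hC⟩ := hu ‖x‖
  exact ((hC x le_rfl 1 zero_le_one le_rfl).analyticAt one_pos).continuousAt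

/-- Polynomials in the first `N` coordinates. -/
def Pol (N : ℕ) : Subalgebra ℝ (X → ℝ) :=
  Algebra.adjoin ℝ {f | ∃ i, i < N ∧ f = fun x : X => x i}

theorem Pol.induct {N : ℕ} {P : (X → ℝ) → Prop} (hc : ∀ a, P fun _ => a)
    (hx : ∀ i, i < N → P fun x => x i)
    (ha : ∀ u v, P u → P v → P fun x => u x + v x)
    (hm : ∀ u v, P u → P v → P fun x => u x * v x) {p : X → ℝ} (hp : p ∈ Pol N) : P p := by
  refine Algebra.adjoin_induction (p := fun q _ => P q) ?_ ?_ ?_ ?_ hp
  · rintro q ⟨i, hi, rfl⟩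
    exact hx i hi
  · intro a
    exact hc a
  · intro u v _ _ hu hv
    exact ha u v hu hv
  · intro u v _ _ hu hv
    exact hm u v hu hv

theorem Pol.ent {N : ℕ} {p : X → ℝ} (hp : p ∈ Pol N) : Ent p :=
  Pol.induct (fun a => Ent.const a) (fun i _ => Ent.coord i) (fun _ _ hu hv => hu.add hv)
    (fun _ _ hu hv => hu.mul hv) hp

theorem Pol.proj {N : ℕ} {p : X → ℝ} (hp : p ∈ Pol N) (x : X) : p (proj N x) = p x :=
  Pol.induct (N := N) (P := fun q => q (MP_149452_an.proj N x) = q x) (fun a => rfl)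
    (fun i hi => proj_apply_lt x hi)
    (fun u v hu hv => by simp only [hu, hv]) (fun u v hu hv => by simp only [hu, hv]) hp

/-- Weierstrass approximation on the cube. -/
theorem exists_pol (N : ℕ) {F : X → ℝ} (hF : Continuous F) {δ : ℝ} (hδ : 0 < δ) :
    ∃ p ∈ Pol N, ∀ x ∈ Q N, |p x - F x| < δ := by
  have : CompactSpace (Q N) := isCompact_iff_compactSpace.1 (isCompact_Q N)
  set A : Subalgebra ℝ C(Q N, ℝ) :=
    { carrier := {f | ∃ p ∈ Pol N, ∀ x : Q N, f x = p x}
      mul_mem' := by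
        rintro f g ⟨p, hp, hfp⟩ ⟨q, hq, hgq⟩
        exact ⟨p * q, mul_mem hp hq, fun x => by simp [hfp, hgq]⟩
      add_mem' := by
        rintro f g ⟨p, hp, hfp⟩ ⟨q, hq, hgq⟩
        exact ⟨p + q, add_mem hp hq, fun x => by simp [hfp, hgq]⟩
      algebraMap_mem' := fun a =>
        ⟨algebraMap ℝ (X → ℝ) a, Subalgebra.algebraMap_mem _ a, fun x => rfl⟩ } with hA
  have hsep : A.SeparatesPoints := by
    intro x y hxy
    have h1 : ∃ i, i < N ∧ x.1 i ≠ y.1 i := by
      by_contra hcon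
      push Not at hcon
      apply hxy
      apply Subtype.ext
      ext i
      by_cases hi : i < N
      · exact hcon i hi
      · rw [x.2.1 i (not_lt.1 hi), y.2.1 i (not_lt.1 hi)]
    obtain ⟨i, hi, hne⟩ := h1
    refine ⟨fun z => z.1 i, ⟨⟨fun z => z.1 i, ?_⟩, ?_, rfl⟩, hne⟩
    · exact (Ent.coord i).continuous.comp continuous_subtype_val
    · exact ⟨fun z => z i, Algebra.subset_adjoin ⟨i, hi, rfl⟩, fun z => rfl⟩
  obtain ⟨⟨g, p, hp, hgp⟩, hg⟩ :=
    ContinuousMap.exists_mem_subalgebra_near_continuousMap_of_separatesPoints A hsep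
      ⟨fun x : Q N => F x, hF.comp continuous_subtype_val⟩ δ hδ
  refine ⟨p, hp, fun x hx => ?_⟩
  have h2 := ContinuousMap.norm_coe_le_norm (g - ⟨fun x : Q N => F x, hF.comp
    continuous_subtype_val⟩) ⟨x, hx⟩
  have h3 : ‖(g - ⟨fun x : Q N => F x, hF.comp continuous_subtype_val⟩) ⟨x, hx⟩‖ =
      |p x - F x| := by
    rw [Real.norm_eq_abs, ContinuousMap.sub_apply, hgp]
    rfl
  rw [h3] at h2
  exact h2.trans_lt hg

end Pool.Agent.MP_149452_an
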