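import Pool.Agent.MP_149452_an.Gen

open Filter Topology

namespace Pool.Agent.MP_149452_an

/-- The space `c₀`. -/
abbrev X := ZeroAtInftyContinuousMap ℕ ℝ

theorem abs_apply_le (x : X) (i : ℕ) : |x i| ≤ ‖x‖ := by
  have h := x.toBCF.norm_coe_le_norm i
  rw [ZeroAtInftyContinuousMap.norm_toBCF_eq_norm] at h
  exact h

/-- The coordinate functionals. -/
noncomputable def coordL (i : ℕ) : X →L[ℝ] ℝ :=
  LinearMap.mkContinuous
    { toFun := fun x => x i
      map_add' := fun _ _ => rfl
      map_smul' := fun _ _ => rfl } 1 (fun x => by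
        rw [one_mul]
        exact abs_apply_le x i)

theorem coordL_apply (i : ℕ) (x : X) : coordL i x = x i := rfl

/-- The monomial attached to a list of coordinates. -/
def mono (w : List ℕ) (h : X) : ℝ := (w.map fun i => h i).prod

theorem mono_nil (h : X) : mono [] h = 1 := rfl

theorem mono_append (w w' : List ℕ) (h : X) : mono (w ++ w') h = mono w h * mono w' h := by
  simp [mono]

theorem abs_mono_le (w : List ℕ) {h : X} {r : ℝ} (hr : ‖h‖ ≤ r) : |mono w h| ≤ r ^ w.length := by
  induction w with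
  | nil => simp [mono]
  | cons a w ih =>
    have h1 : mono (a :: w) h = h a * mono w h := by simp [mono]
    rw [h1, abs_mul, List.length_cons, pow_succ, mul_comm (r ^ _)]
    exact mul_le_mul ((abs_apply_le h a).trans hr) ih (abs_nonneg _) ((norm_nonneg _).trans hr)

theorem mono_zero {w : List ℕ} (hw : w.length ≠ 0) : mono w (0 : X) = 0 := by
  cases w with
  | nil => simp at hw
  | cons a w => simp [mono]

/-- `u` has, on the closed ball of radius `r` around `x`, an expansion into monomials whose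
majorant is at most `M`. -/
def Rep (u : X → ℝ) (x : X) (r M : ℝ) : Prop :=
  ∃ (ι : Type) (c : ι → ℝ) (w : ι → List ℕ),
    Summable (fun i => |c i| * r ^ (w i).length) ∧ ∑' i, |c i| * r ^ (w i).length ≤ M ∧
    ∀ h : X, ‖h‖ ≤ r → u (x + h) = ∑' i, c i * mono (w i) h

section

variable {u v : X → ℝ} {x : X} {r M M' : ℝ}

theorem summable_of {ι : Type} {c : ι → ℝ} {w : ι → List ℕ}
    (hs : Summable (fun i => |c i| * r ^ (w i).length)) {h : X} (hh : ‖h‖ ≤ r) :
    Summable fun i => c i * mono (w i) h := by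
  refine Summable.of_norm_bounded hs fun i => ?_
  rw [Real.norm_eq_abs, abs_mul]
  exact mul_le_mul_of_nonneg_left (abs_mono_le _ hh) (abs_nonneg _)

theorem Rep.le (h : Rep u x r M) (hM : M ≤ M') : Rep u x r M' := by
  obtain ⟨ι, c, w, h1, h2, h3⟩ := h
  exact ⟨ι, c, w, h1, h2.trans hM, h3⟩

theorem Rep.congr (h : Rep u x r M) (huv : ∀ k : X, ‖k‖ ≤ r → v (x + k) = u (x + k)) :
    Rep v x r M := by
  obtain ⟨ι, c, w, h1, h2, h3⟩ := h
  exact ⟨ι, c, w, h1, h2, fun k hk => (huv k hk).trans (h3 k hk)⟩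

theorem Rep.nonneg (h : Rep u x r M) (hr : 0 ≤ r) : 0 ≤ M := by
  obtain ⟨ι, c, w, h1, h2, h3⟩ := h
  exact (tsum_nonneg fun i => by positivity).trans h2

theorem Rep.abs_le (h : Rep u x r M) {k : X} (hk : ‖k‖ ≤ r) : |u (x + k)| ≤ M := by
  obtain ⟨ι, c, w, h1, h2, h3⟩ := h
  rw [h3 k hk, ← Real.norm_eq_abs]
  refine le_trans (tsum_of_norm_bounded h1.hasSum fun i => ?_) h2
  rw [Real.norm_eq_abs, abs_mul]
  exact mul_le_mul_of_nonneg_left (abs_mono_le _ hk) (abs_nonneg _)

theorem Rep.const (a : ℝ) (x : X) (r : ℝ) : Rep (fun _ => a) x r |a| := by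
  refine ⟨Unit, fun _ => a, fun _ => [], ?_, ?_, fun h _ => ?_⟩
  · exact summable_of_hasFiniteSupport (Set.toFinite _)
  · simp
  · simp [mono]

theorem Rep.coord (i : ℕ) (x : X) (hr : 0 ≤ r) : Rep (fun y => y i) x r (|x i| + r) := by
  refine ⟨Bool, fun b => if b then x i else 1, fun b => if b then [] else [i], ?_, ?_,
    fun h _ => ?_⟩
  · exact summable_of_hasFiniteSupport (Set.toFinite _)
  · rw [tsum_fintype]
    simp
  · rw [tsum_fintype]
    simp [mono]

theorem Rep.add (hu : Rep u x r M) (hv : Rep v x r M') :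
    Rep (fun y => u y + v y) x r (M + M') := by
  obtain ⟨ι, c, w, h1, h2, h3⟩ := hu
  obtain ⟨ι', c', w', h1', h2', h3'⟩ := hv
  have hs : HasSum (fun j : ι ⊕ ι' => |Sum.elim c c' j| * r ^ (Sum.elim w w' j).length)
      ((∑' i, |c i| * r ^ (w i).length) + ∑' i, |c' i| * r ^ (w' i).length) :=
    HasSum.sum (f := fun j : ι ⊕ ι' => |Sum.elim c c' j| * r ^ (Sum.elim w w' j).length)
      h1.hasSum h1'.hasSum
  refine ⟨ι ⊕ ι', Sum.elim c c', Sum.elim w w', hs.summable, ?_, fun h hh => ?_⟩
  · rw [hs.tsum_eq]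
    exact add_le_add h2 h2'
  · have hs2 : HasSum (fun j : ι ⊕ ι' => Sum.elim c c' j * mono (Sum.elim w w' j) h)
      ((∑' i, c i * mono (w i) h) + ∑' i, c' i * mono (w' i) h) :=
      HasSum.sum (f := fun j : ι ⊕ ι' => Sum.elim c c' j * mono (Sum.elim w w' j) h)
        (summable_of h1 hh).hasSum (summable_of h1' hh).hasSum
    rw [hs2.tsum_eq, ← h3 h hh, ← h3' h hh]

theorem Rep.mul (hu : Rep u x r M) (hv : Rep v x r M') (hr : 0 ≤ r) :
    Rep (fun y => u y * v y) x r (M * M') := by
  have hM := hu.nonneg hr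
  obtain ⟨ι, c, w, h1, h2, h3⟩ := hu
  obtain ⟨ι', c', w', h1', h2', h3'⟩ := hv
  have e1 : (fun p : ι × ι' => |c p.1 * c' p.2| * r ^ (w p.1 ++ w' p.2).length) =
      fun p : ι × ι' => (|c p.1| * r ^ (w p.1).length) * (|c' p.2| * r ^ (w' p.2).length) := by
    funext p
    rw [abs_mul, List.length_append, pow_add]
    ring
  have hs : Summable fun p : ι × ι' =>
      (|c p.1| * r ^ (w p.1).length) * (|c' p.2| * r ^ (w' p.2).length) :=
    h1.mul_of_nonneg h1' (fun i => by positivity) (fun i => by positivity)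
  refine ⟨ι × ι', fun p => c p.1 * c' p.2, fun p => w p.1 ++ w' p.2, ?_, ?_, fun h hh => ?_⟩
  · rw [e1]
    exact hs
  · rw [e1, ← h1.tsum_mul_tsum h1' hs]
    exact mul_le_mul h2 h2' (tsum_nonneg fun i => by positivity) hM
  · have e2 : (fun p : ι × ι' => c p.1 * c' p.2 * mono (w p.1 ++ w' p.2) h) =
        fun p : ι × ι' => (c p.1 * mono (w p.1) h) * (c' p.2 * mono (w' p.2) h) := by
      funext p
      rw [mono_append]
      ring
    change u (x + h) * v (x + h) = ∑' p : ι × ι', c p.1 * c' p.2 * mono (w p.1 ++ w' p.2) h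
    rw [h3 h hh, h3' h hh, e2]
    refine (summable_of h1 hh).tsum_mul_tsum (summable_of h1' hh) ?_
    rw [← e2]
    refine Summable.of_norm_bounded hs fun p => ?_
    rw [Real.norm_eq_abs, abs_mul, abs_mul]
    have := abs_mono_le (w p.1 ++ w' p.2) hh
    rw [List.length_append, pow_add] at this
    calc |c p.1| * |c' p.2| * |mono (w p.1 ++ w' p.2) h|
        ≤ |c p.1| * |c' p.2| * (r ^ (w p.1).length * r ^ (w' p.2).length) :=
          mul_le_mul_of_nonneg_left this (by positivity)
      _ = _ := by ring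

theorem Rep.smul (hu : Rep u x r M) (a : ℝ) (hr : 0 ≤ r) :
    Rep (fun y => a * u y) x r (|a| * M) := (Rep.const a x r).mul hu hr

theorem Rep.neg (hu : Rep u x r M) (hr : 0 ≤ r) : Rep (fun y => -u y) x r M := by
  have := hu.smul (-1) hr
  simpa using this

theorem Rep.sub (hu : Rep u x r M) (hv : Rep v x r M') (hr : 0 ≤ r) :
    Rep (fun y => u y - v y) x r (M + M') := by
  simpa [sub_eq_add_neg] using hu.add (hv.neg hr)

theorem Rep.pow (hu : Rep u x r M) (hr : 0 ≤ r) (k : ℕ) :
    Rep (fun y => u y ^ k) x r (M ^ k) := by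
  induction k with
  | zero => simpa using Rep.const 1 x r
  | succ k ih => simpa [pow_succ] using ih.mul hu hr

theorem Rep.sum {s : Finset ℕ} {f : ℕ → X → ℝ} {B : ℕ → ℝ}
    (hf : ∀ i ∈ s, Rep (f i) x r (B i)) : Rep (fun y => ∑ i ∈ s, f i y) x r (∑ i ∈ s, B i) := by
  classical
  induction s using Finset.induction_on with
  | empty => simpa using Rep.const 0 x r
  | insert a s ha ih =>
    have h1 := (hf a (Finset.mem_insert_self a s)).add
      (ih fun i hi => hf i (Finset.mem_insert_of_mem hi))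
    simpa [Finset.sum_insert ha] using h1

theorem Rep.tsum {f : ℕ → X → ℝ} {B : ℕ → ℝ} (hB : Summable B) (hr : 0 ≤ r)
    (hf : ∀ k, Rep (f k) x r (B k)) : Rep (fun y => ∑' k, f k y) x r (∑' k, B k) := by
  choose ι c w h1 h2 h3 using hf
  have h0 : ∀ k, 0 ≤ ∑' i, |c k i| * r ^ (w k i).length :=
    fun k => tsum_nonneg fun i => by positivity
  have hs1 : Summable fun k => ∑' i, |c k i| * r ^ (w k i).length :=
    Summable.of_nonneg_of_le h0 h2 hB
  have hs : Summable fun p : (Σ k, ι k) => |c p.1 p.2| * r ^ (w p.1 p.2).length := by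
    rw [summable_sigma_of_nonneg (fun p => by positivity)]
    exact ⟨h1, hs1⟩
  refine ⟨Σ k, ι k, fun p => c p.1 p.2, fun p => w p.1 p.2, hs, ?_, fun h hh => ?_⟩
  · rw [hs.tsum_sigma]
    exact hs1.tsum_le_tsum h2 hB
  · have e1 : ∀ k, f k (x + h) = ∑' i, c k i * mono (w k i) h := fun k => h3 k h hh
    simp only [e1]
    have hs2 : Summable fun p : (Σ k, ι k) => c p.1 p.2 * mono (w p.1 p.2) h := summable_of hs hh
    rw [hs2.tsum_sigma]

theorem Rep.shrink {η : ℝ} (hu : Rep u x r M) (hr : 0 < r) (hη : 0 < η) :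
    ∃ r₀ : ℝ, 0 < r₀ ∧ ∀ s : ℝ, 0 ≤ s → s ≤ r₀ → Rep u x s (|u x| + η) := by
  have hM := hu.nonneg hr.le
  obtain ⟨ι, c, w, h1, h2, h3⟩ := hu
  refine ⟨min r (η * r / (M + 1)), by positivity, fun s hs0 hs => ?_⟩
  have hsr : s ≤ r := hs.trans (min_le_left _ _)
  have hsη : s / r * M ≤ η := by
    have h4 : s ≤ η * r / (M + 1) := hs.trans (min_le_right _ _)
    rw [le_div_iff₀ (by positivity)] at h4
    rw [div_mul_eq_mul_div, div_le_iff₀ hr]
    nlinarith
  -- the bound for the terms of positive length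
  have hterm : ∀ i, |if (w i).length = 0 then 0 else c i| * s ^ (w i).length ≤
      s / r * (|c i| * r ^ (w i).length) := by
    intro i
    by_cases hi : (w i).length = 0
    · rw [if_pos hi]
      have : 0 ≤ s / r * (|c i| * r ^ (w i).length) := by positivity
      simpa using this
    · rw [if_neg hi]
      obtain ⟨k, hk⟩ := Nat.exists_eq_succ_of_ne_zero hi
      rw [hk, pow_succ, pow_succ]
      have h5 : s ^ k ≤ r ^ k := pow_le_pow_left₀ hs0 hsr k
      calc |c i| * (s ^ k * s) = (|c i| * s) * s ^ k := by ring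
        _ ≤ (|c i| * s) * r ^ k := mul_le_mul_of_nonneg_left h5 (by positivity)
        _ = s / r * (|c i| * (r ^ k * r)) := by field_simp
  have hsum1 : Summable fun i => s / r * (|c i| * r ^ (w i).length) := h1.mul_left _
  have hsum2 : Summable fun i => |if (w i).length = 0 then 0 else c i| * s ^ (w i).length :=
    Summable.of_nonneg_of_le (fun i => by positivity) hterm hsum1
  have h6 : ∑' i, |if (w i).length = 0 then 0 else c i| * s ^ (w i).length ≤ η := by
    refine (hsum2.tsum_le_tsum hterm hsum1).trans ?_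
    rw [tsum_mul_left]
    exact (mul_le_mul_of_nonneg_left h2 (by positivity)).trans hsη
  -- the representation of `u - u x`
  have key : Rep (fun y => u y - u x) x s η := by
    refine ⟨ι, fun i => if (w i).length = 0 then 0 else c i, w, hsum2, h6, fun h hh => ?_⟩
    have hh' : ‖h‖ ≤ r := hh.trans hsr
    have h0 : ‖(0 : X)‖ ≤ r := by simpa using hr.le
    have e0 := h3 0 h0
    rw [add_zero] at e0
    change u (x + h) - u x = ∑' i, (if (w i).length = 0 then 0 else c i) * mono (w i) h
    rw [h3 h hh', e0, ← (summable_of h1 hh').tsum_sub (summable_of h1 h0)]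
    refine tsum_congr fun i => ?_
    by_cases hi : (w i).length = 0
    · rw [if_pos hi]
      have : w i = [] := List.length_eq_zero_iff.1 hi
      rw [this, mono_nil, mono_nil]
      ring
    · rw [if_neg hi, mono_zero hi]
      ring
  have := (Rep.const (u x) x s).add key
  refine this.congr fun k _ => ?_
  ring

/-- The function `1 - exp (-u)`. -/
theorem Rep.one_sub_exp_neg (hu : Rep u x r M) (hr : 0 ≤ r) :
    Rep (fun y => 1 - Real.exp (-u y)) x r (Real.exp M - 1) := by
  have hB : HasSum (fun k : ℕ => M ^ (k + 1) / (k + 1).factorial) (Real.exp M - 1) := by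
    have h1 : HasSum (fun k : ℕ => M ^ k / k.factorial) (Real.exp M) := by
      rw [Real.exp_eq_exp_ℝ]
      exact NormedSpace.expSeries_div_hasSum_exp M
    have := (hasSum_nat_add_iff' 1).2 h1
    simpa using this
  have hf : ∀ k : ℕ, Rep (fun y => -((-u y) ^ (k + 1) / (k + 1).factorial)) x r
      (M ^ (k + 1) / (k + 1).factorial) := by
    intro k
    have h1 := (((hu.neg hr).pow hr (k + 1)).smul (1 / (k + 1).factorial : ℝ) hr).neg hr
    refine (h1.congr fun y _ => ?_).le (le_of_eq ?_)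
    · ring
    · rw [abs_of_nonneg (by positivity)]
      ring
  have h2 := Rep.tsum hB.summable hr hf
  rw [hB.tsum_eq] at h2
  refine h2.congr fun k _ => ?_
  have h3 : HasSum (fun j : ℕ => (-u (x + k)) ^ j / j.factorial) (Real.exp (-u (x + k))) := by
    rw [Real.exp_eq_exp_ℝ]
    exact NormedSpace.expSeries_div_hasSum_exp (-u (x + k))
  have h4 := (hasSum_nat_add_iff' 1).2 h3
  have h5 := h4.neg.tsum_eq
  rw [h5]
  simp

theorem Rep.analyticAt (hu : Rep u x r M) (hr : 0 < r) : AnalyticAt ℝ u x := by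
  obtain ⟨ι, c, w, h1, h2, h3⟩ := hu
  refine analyticAt_of_rep (l := coordL) (fun i x => abs_apply_le x i) hr h1 fun h hh => ?_
  rw [h3 h hh]
  exact (summable_of h1 hh).hasSum

end

end Pool.Agent.MP_149452_an
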