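import Pool.Agent.MP_149452_an.Poly

open Filter Topology

namespace Pool.Agent.MP_149452_an

/-- The relation between consecutive stages of the construction. -/
structure StepRel (f H : X → ℝ) (ε : ℝ) (N : ℕ) (S g S' g' : X → ℝ) : Prop where
  ex : ∃ χ h k : X → ℝ, (∀ x, 0 ≤ χ x ∧ χ x ≤ 1) ∧
    (∀ x, S' x = (1 - χ x) * S x + χ x * h x) ∧
    (∀ x, g' x = (1 - χ x) * g x + χ x * k x) ∧
    (∀ x : X, (∀ i, i < N + 1 → |x i| ≤ N + 2) →
      H (proj (N + 1) x) ≤ h x ∧ h x ≤ H (proj (N + 1) x) + 1 ∧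
        |k x - f (proj (N + 1) x)| ≤ ε / 8) ∧
    (∀ x : X, (∀ i, i < N + 1 → |x i| ≤ N + 2) →
      ((∃ i, i < N + 1 ∧ (N : ℝ) + 1 ≤ |x i|) ∨ 1 ≤ |x N * S x|) →
        |S' x - h x| ≤ 1 / 2 ∧ |g' x - k x| ≤ ε / 8)
  maj : ∀ (x : X) (r B : ℝ), ‖x‖ + 1 ≤ (N + 1) / 4 → 0 ≤ r → r ≤ 1 → B ≤ N + 1 →
    (|x N| + r) * B ≤ 1 / 4 → Rep S x r B →
    Rep (fun y => S' y - S y) x r ((1 / 2) ^ N) ∧
    ∀ G : ℝ, Rep g x r G → Rep (fun y => g' y - g y) x r ((1 / 2) ^ N * (1 + G))

/-- The invariant properties of a stage. -/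
structure Stage (N : ℕ) (S g : X → ℝ) : Prop where
  entS : Ent S
  entg : Ent g
  projS : ∀ x, S (proj N x) = S x
  projg : ∀ x, g (proj N x) = g x

theorem exists_step {f H : X → ℝ} (hf : Continuous f) (hH : Continuous H) {ε : ℝ} (hε : 0 < ε)
    {N : ℕ} {S g : X → ℝ} (hst : Stage N S g) :
    ∃ S' g' : X → ℝ, Stage (N + 1) S' g' ∧ StepRel f H ε N S g S' g' := by
  obtain ⟨h, hh, hhQ⟩ := exists_pol (N + 1) (F := fun x => H x + 1 / 2)
    (hH.add continuous_const) (δ := 1 / 2) (by norm_num)
  obtain ⟨k, hk, hkQ⟩ := exists_pol (N + 1) hf (δ := ε / 8) (by positivity)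
  -- the constant A
  have hcont : Continuous fun x => |S x| + |h x| + |g x| + |k x| :=
    ((hst.entS.continuous.abs.add (Pol.ent hh).continuous.abs).add
      hst.entg.continuous.abs).add (Pol.ent hk).continuous.abs
  obtain ⟨B₀, hB₀⟩ := (isCompact_Q (N + 1)).exists_bound_of_continuousOn hcont.continuousOn
  have hB₀' : ∀ x ∈ Q (N + 1), |S x| + |h x| + |g x| + |k x| ≤ |B₀| := fun x hx =>
    (le_abs_self _).trans ((hB₀ x hx).trans (le_abs_self _))
  obtain ⟨A, hA0, hA1⟩ : ∃ A : ℝ, 0 < A ∧ Real.exp (-A) * |B₀| ≤ min (1 / 2) (ε / 8) := by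
    have h1 : Tendsto (fun A : ℝ => Real.exp (-A) * |B₀|) atTop (𝓝 (0 * |B₀|)) :=
      (Real.tendsto_exp_neg_atTop_nhds_zero).mul_const _
    rw [zero_mul] at h1
    have h2 : (0 : ℝ) < min (1 / 2) (ε / 8) := by positivity
    obtain ⟨A, hA, hA'⟩ := ((eventually_gt_atTop 0).and (h1.eventually (gt_mem_nhds h2))).exists
    exact ⟨A, hA, hA'.le⟩
  -- majorants of h and k
  obtain ⟨C₁, hC₁⟩ := (Pol.ent hh) (N + 1)
  obtain ⟨C₂, hC₂⟩ := (Pol.ent hk) (N + 1)
  set C : ℝ := max |C₁| |C₂| with hC
  have hC0 : 0 ≤ C := (abs_nonneg C₁).trans (le_max_left _ _)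
  -- the exponent
  obtain ⟨K, hK1, hK⟩ : ∃ K : ℕ, 1 ≤ K ∧
      Real.exp (A * ((N + 2) * (1 / 16) ^ K)) - 1 ≤ (1 / 2) ^ N / (C + N + 1) := by
    have h1 : Tendsto (fun K : ℕ => Real.exp (A * ((N + 2) * (1 / 16) ^ K)) - 1) atTop
        (𝓝 (Real.exp (A * ((N + 2) * 0)) - 1)) := by
      refine (Real.continuous_exp.tendsto _ |>.comp ?_).sub_const 1
      exact ((tendsto_pow_atTop_nhds_zero_of_lt_one (by norm_num) (by norm_num)).const_mul
        ((N : ℝ) + 2)).const_mul A
    rw [mul_zero, mul_zero, Real.exp_zero, sub_self] at h1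
    have h2 : (0 : ℝ) < (1 / 2) ^ N / (C + N + 1) := by positivity
    obtain ⟨K, hK, hK'⟩ := ((eventually_ge_atTop 1).and (h1.eventually (gt_mem_nhds h2))).exists
    exact ⟨K, hK, hK'.le⟩
  set E : X → ℝ := fun x => (x N * S x) ^ (2 * K) +
    ∑ i ∈ Finset.range (N + 1), (1 / ((N : ℝ) + 1) * x i) ^ (2 * K) with hE
  have hE0 : ∀ x, 0 ≤ E x := fun x => by
    refine add_nonneg ((even_two_mul K).pow_nonneg _) (Finset.sum_nonneg fun i _ => ?_)
    exact (even_two_mul K).pow_nonneg _
  set χ : X → ℝ := fun x => 1 - Real.exp (-(A * E x)) with hχ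
  have hχ0 : ∀ x, 0 ≤ χ x ∧ χ x ≤ 1 := fun x => by
    have h1 : 0 ≤ A * E x := mul_nonneg hA0.le (hE0 x)
    have h2 : Real.exp (-(A * E x)) ≤ 1 := by
      rw [Real.exp_le_one_iff]
      linarith
    have h3 := Real.exp_pos (-(A * E x))
    simp only [hχ]
    constructor <;> linarith
  have hEent : Ent E :=
    (((Ent.coord N).mul hst.entS).pow (2 * K)).add
      (Ent.sum fun i _ => ((Ent.const (1 / ((N : ℝ) + 1))).mul (Ent.coord i)).pow (2 * K))
  have hχent : Ent χ := ((Ent.const A).mul hEent).one_sub_exp_neg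
  have hχent' : Ent fun x => 1 - χ x := (Ent.const 1).sub hχent
  have hprojE : ∀ x, E (proj (N + 1) x) = E x := by
    intro x
    simp only [hE]
    have h1 : S (proj (N + 1) x) = S x := by
      rw [← hst.projS (proj (N + 1) x), ← hst.projS x]
      congr 1
      ext i
      rw [proj_apply, proj_apply, proj_apply]
      split_ifs with h1 h2
      · rfl
      · omega
      · rfl
    rw [h1, proj_apply_lt x (Nat.lt_succ_self N)]
    congr 1
    refine Finset.sum_congr rfl fun i hi => ?_
    rw [proj_apply_lt x (Finset.mem_range.1 hi)]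
  have hprojχ : ∀ x, χ (proj (N + 1) x) = χ x := fun x => by simp only [hχ, hprojE]
  have hpp : ∀ (u : X → ℝ), (∀ x, u (proj N x) = u x) → ∀ x, u (proj (N + 1) x) = u x := by
    intro u hu x
    rw [← hu (proj (N + 1) x), ← hu x]
    congr 1
    ext i
    rw [proj_apply, proj_apply, proj_apply]
    split_ifs with h1 h2
    · rfl
    · omega
    · rfl
  refine ⟨fun x => (1 - χ x) * S x + χ x * h x, fun x => (1 - χ x) * g x + χ x * k x, ?_, ?_⟩
  · refine ⟨(hχent'.mul hst.entS).add (hχent.mul (Pol.ent hh)),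
      (hχent'.mul hst.entg).add (hχent.mul (Pol.ent hk)), fun x => ?_, fun x => ?_⟩
    · rw [hprojχ, hpp S hst.projS, Pol.proj hh]
    · rw [hprojχ, hpp g hst.projg, Pol.proj hk]
  · have hcube : ∀ x : X, (∀ i, i < N + 1 → |x i| ≤ N + 2) → proj (N + 1) x ∈ Q (N + 1) := by
      intro x hx
      apply proj_mem_Q
      intro i hi
      push_cast
      linarith [hx i hi]
    constructor
    · refine ⟨χ, h, k, hχ0, fun x => rfl, fun x => rfl, fun x hx => ?_, fun x hx hforce => ?_⟩
      · have hQ := hcube x hx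
        have h1 := abs_lt.1 (hhQ _ hQ)
        have h2 := hkQ _ hQ
        rw [Pol.proj hh] at h1
        rw [Pol.proj hk] at h2
        refine ⟨by linarith [h1.1], by linarith [h1.2], h2.le⟩
      · have hQ := hcube x hx
        have hb := hB₀' _ hQ
        rw [Pol.proj hh, Pol.proj hk, hpp S hst.projS, hpp g hst.projg] at hb
        have hE1 : 1 ≤ E x := by
          rcases hforce with ⟨i, hi, hxi⟩ | hforce
          · have h1 : (1 : ℝ) ≤ (1 / ((N : ℝ) + 1) * x i) ^ (2 * K) := by
              rw [pow_mul, ← sq_abs, abs_mul, abs_of_pos (by positivity : (0 : ℝ) < 1 / ((N : ℝ) + 1))]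
              refine one_le_pow₀ ?_
              have h2 : 1 ≤ 1 / ((N : ℝ) + 1) * |x i| := by
                rw [one_div, ← div_eq_inv_mul, one_le_div (by positivity)]
                exact hxi
              nlinarith
            have h2 : (1 / ((N : ℝ) + 1) * x i) ^ (2 * K) ≤
                ∑ i ∈ Finset.range (N + 1), (1 / ((N : ℝ) + 1) * x i) ^ (2 * K) :=
              Finset.single_le_sum (f := fun i => (1 / ((N : ℝ) + 1) * x i) ^ (2 * K))
                (fun i _ => (even_two_mul K).pow_nonneg _) (Finset.mem_range.2 hi)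
            have h3 : 0 ≤ (x N * S x) ^ (2 * K) := (even_two_mul K).pow_nonneg _
            simp only [hE]
            linarith
          · have h1 : (1 : ℝ) ≤ (x N * S x) ^ (2 * K) := by
              rw [pow_mul, ← sq_abs]
              refine one_le_pow₀ ?_
              nlinarith
            have h3 : 0 ≤ ∑ i ∈ Finset.range (N + 1), (1 / ((N : ℝ) + 1) * x i) ^ (2 * K) :=
              Finset.sum_nonneg fun i _ => (even_two_mul K).pow_nonneg _
            simp only [hE]
            linarith
        have hexp : 1 - χ x ≤ Real.exp (-A) := by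
          simp only [hχ, sub_sub_cancel]
          rw [Real.exp_le_exp]
          nlinarith
        have hχ1 : 0 ≤ 1 - χ x := by linarith [(hχ0 x).2]
        have hA1' := hA1.trans (min_le_left _ _)
        have hA1'' := hA1.trans (min_le_right _ _)
        have hexp0 := Real.exp_pos (-A)
        constructor
        · have e1 : (1 - χ x) * S x + χ x * h x - h x = (1 - χ x) * (S x - h x) := by ring
          rw [e1, abs_mul, abs_of_nonneg hχ1]
          have h2 : |S x - h x| ≤ |B₀| := by
            have := abs_sub (S x) (h x)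
            linarith [abs_nonneg (g x), abs_nonneg (k x)]
          calc (1 - χ x) * |S x - h x| ≤ Real.exp (-A) * |B₀| :=
                mul_le_mul hexp h2 (abs_nonneg _) hexp0.le
            _ ≤ 1 / 2 := hA1'
        · have e1 : (1 - χ x) * g x + χ x * k x - k x = (1 - χ x) * (g x - k x) := by ring
          rw [e1, abs_mul, abs_of_nonneg hχ1]
          have h2 : |g x - k x| ≤ |B₀| := by
            have := abs_sub (g x) (k x)
            linarith [abs_nonneg (S x), abs_nonneg (h x)]
          calc (1 - χ x) * |g x - k x| ≤ Real.exp (-A) * |B₀| :=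
                mul_le_mul hexp h2 (abs_nonneg _) hexp0.le
            _ ≤ ε / 8 := hA1''
    · intro x r B hx hr0 hr1 hB hsmall hS
      have hB0 : 0 ≤ B := hS.nonneg hr0
      have hxN : ‖x‖ ≤ N + 1 := by
        have : (0 : ℝ) ≤ N := Nat.cast_nonneg N
        linarith
      have hhr : Rep h x r C := (hC₁ x hxN r hr0 hr1).le ((le_abs_self _).trans (le_max_left _ _))
      have hkr : Rep k x r C := (hC₂ x hxN r hr0 hr1).le ((le_abs_self _).trans (le_max_right _ _))
      -- the majorant of E
      have hEr : Rep E x r ((N + 2) * (1 / 16) ^ K) := by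
        have h1 : Rep (fun y => (y N * S y) ^ (2 * K)) x r ((1 / 16) ^ K) := by
          refine (((Rep.coord N x hr0).mul hS hr0).pow hr0 (2 * K)).le ?_
          rw [pow_mul]
          refine pow_le_pow_left₀ (by positivity) ?_ K
          have h2 : 0 ≤ (|x N| + r) * B := by positivity
          nlinarith
        have h2 : Rep (fun y => ∑ i ∈ Finset.range (N + 1), (1 / ((N : ℝ) + 1) * y i) ^ (2 * K)) x r
            (∑ i ∈ Finset.range (N + 1), (1 / 16) ^ K) := by
          refine Rep.sum fun i _ => ?_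
          refine (((Rep.coord i x hr0).smul (1 / ((N : ℝ) + 1)) hr0).pow hr0 (2 * K)).le ?_
          rw [pow_mul, abs_of_pos (by positivity : (0 : ℝ) < 1 / ((N : ℝ) + 1))]
          refine pow_le_pow_left₀ (by positivity) ?_ K
          have h3 : 1 / ((N : ℝ) + 1) * (|x i| + r) ≤ 1 / 4 := by
            rw [one_div, ← div_eq_inv_mul, div_le_iff₀ (by positivity)]
            have := abs_apply_le x i
            linarith
          have h4 : 0 ≤ 1 / ((N : ℝ) + 1) * (|x i| + r) := by positivity
          nlinarith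
        refine (h1.add h2).le (le_of_eq ?_)
        rw [Finset.sum_const, Finset.card_range, nsmul_eq_mul]
        push_cast
        ring
      have hχr : Rep χ x r ((1 / 2) ^ N / (C + N + 1)) := by
        have h1 := ((hEr.smul A hr0).one_sub_exp_neg hr0)
        rw [abs_of_pos hA0] at h1
        exact h1.le hK
      have hden : (0 : ℝ) < C + N + 1 := by positivity
      have hhalf : (0 : ℝ) < (1 / 2) ^ N := by positivity
      constructor
      · have h1 := hχr.mul (hhr.sub hS hr0) hr0
        refine (h1.congr fun y _ => ?_).le ?_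
        · ring
        · rw [div_mul_eq_mul_div, div_le_iff₀ hden]
          exact mul_le_mul_of_nonneg_left (by linarith) hhalf.le
      · intro G hG
        have hG0 := hG.nonneg hr0
        have h1 := hχr.mul (hkr.sub hG hr0) hr0
        refine (h1.congr fun y _ => ?_).le ?_
        · ring
        · rw [div_mul_eq_mul_div, div_le_iff₀ hden, mul_assoc]
          refine mul_le_mul_of_nonneg_left ?_ hhalf.le
          have hN0 : (0 : ℝ) ≤ N := Nat.cast_nonneg N
          nlinarith [mul_nonneg hG0 hC0, mul_nonneg hG0 hN0]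

end Pool.Agent.MP_149452_an
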